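import Pool.Agent.T9h20.TE.Spec

/-!
# Project TE, piece (K): facts on laws
-/

set_option autoImplicit false

open MeasureTheory Set
open scoped ENNReal NNReal

namespace Pool.Agent.T9h95.TE

open Pool.Agent.T9h20.TE (Sh)

/-- scaling a law -/
theorem K1 {ν : Measure ℝ} {V : ℝ} (hV : 0 < V)
    (hν : ∀ (h : ℝ) (A : Set ℝ), MeasurableSet A →
      ν ((fun z => z + h) ⁻¹' A) ≤ ν A + ENNReal.ofReal V * ‖h‖ₑ) :
    Sh (ν.map (fun z => V * z)) := by
  intro h A hA
  have hm : Measurable (fun z : ℝ => V * z) := measurable_const_mul V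
  have hs : Measurable (fun z : ℝ => z + h) := measurable_add_const h
  rw [Measure.map_apply hm (hs hA), Measure.map_apply hm hA]
  have h1 := hν (h / V) ((fun z => V * z) ⁻¹' A) (hm hA)
  have e1 : (fun z : ℝ => V * z) ⁻¹' ((fun z => z + h) ⁻¹' A) =
      (fun z => z + h / V) ⁻¹' ((fun z => V * z) ⁻¹' A) := by
    ext z
    simp only [mem_preimage]
    have : V * (z + h / V) = V * z + h := by
      field_simp
    rw [this]
  rw [e1]
  refine h1.trans (le_of_eq ?_)
  congr 1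
  rw [← ofReal_norm, ← ofReal_norm, ← ENNReal.ofReal_mul hV.le, norm_div, Real.norm_of_nonneg hV.le]
  congr 1
  field_simp

/-- the same with the constant as a nonnegative real number -/
theorem K1' {ν : Measure ℝ} {V : ℝ≥0} (hV : 0 < V)
    (hν : ∀ (h : ℝ) (A : Set ℝ), MeasurableSet A →
      ν ((fun z => z + h) ⁻¹' A) ≤ ν A + (V : ℝ≥0∞) * ‖h‖ₑ) :
    Sh (ν.map (fun z => (V : ℝ) * z)) :=
  K1 (V := (V : ℝ)) (by exact_mod_cast hV) fun h A hA => by
    rw [ENNReal.ofReal_coe_nnreal]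
    exact hν h A hA

/-- Lebesgue measure on an interval moves little -/
theorem sh_Icc (p r : ℝ) : Sh ((volume : Measure ℝ).restrict (Icc p r)) := by
  intro h A hA
  have hs : Measurable (fun z : ℝ => z + h) := measurable_add_const h
  rw [Measure.restrict_apply (hs hA), Measure.restrict_apply hA]
  have e1 : (fun z : ℝ => z + h) ⁻¹' A ∩ Icc p r =
      (fun z : ℝ => z + h) ⁻¹' (A ∩ Icc (p + h) (r + h)) := by
    ext z
    simp only [mem_inter_iff, mem_preimage, mem_Icc, add_le_add_iff_right]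
  rw [e1, measure_preimage_add_right]
  have h2 : A ∩ Icc (p + h) (r + h) ⊆ (A ∩ Icc p r) ∪ (Icc (p + h) p ∪ Icc r (r + h)) := by
    rintro x ⟨hx, h3, h4⟩
    by_cases h5 : p ≤ x
    · by_cases h6 : x ≤ r
      · exact Or.inl ⟨hx, h5, h6⟩
      · exact Or.inr (Or.inr ⟨(not_le.1 h6).le, h4⟩)
    · exact Or.inr (Or.inl ⟨h3, (not_le.1 h5).le⟩)
  refine (measure_mono h2).trans ((measure_union_le _ _).trans ?_)
  gcongr
  refine (measure_union_le _ _).trans ?_
  rw [Real.volume_Icc, Real.volume_Icc, ← ofReal_norm, Real.norm_eq_abs]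
  rcases le_total 0 h with h7 | h7
  · rw [ENNReal.ofReal_of_nonpos (by linarith : p - (p + h) ≤ 0), zero_add]
    refine ENNReal.ofReal_le_ofReal ?_
    rw [abs_of_nonneg h7]
    linarith
  · rw [ENNReal.ofReal_of_nonpos (by linarith : r + h - r ≤ 0), add_zero]
    refine ENNReal.ofReal_le_ofReal ?_
    rw [abs_of_nonpos h7]
    linarith

/-- half the uniform law, moved and shrunk, is Lebesgue measure on an interval of length one -/
theorem map_unif (a : ℝ) :
    ((2 : ℝ≥0∞)⁻¹ • (volume : Measure ℝ).restrict (Icc (-1) 1)).map (fun x => (a + x) / 2) =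
      (volume : Measure ℝ).restrict (Icc ((a - 1) / 2) ((a + 1) / 2)) := by
  have hm : Measurable (fun x : ℝ => (a + x) / 2) := by fun_prop
  ext A hA
  rw [Measure.map_apply hm hA, Measure.smul_apply, Measure.restrict_apply (hm hA),
    Measure.restrict_apply hA]
  have e1 : (fun x : ℝ => (a + x) / 2) ⁻¹' A ∩ Icc (-1) 1 =
      (fun x : ℝ => (2 : ℝ)⁻¹ * x) ⁻¹' ((fun x : ℝ => x + a / 2) ⁻¹'
        (A ∩ Icc ((a - 1) / 2) ((a + 1) / 2))) := by
    ext z
    simp only [mem_inter_iff, mem_preimage, mem_Icc]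
    have e2 : (2 : ℝ)⁻¹ * z + a / 2 = (a + z) / 2 := by ring
    rw [e2]
    refine and_congr_right fun _ => ?_
    constructor
    · rintro ⟨h1, h2⟩
      constructor <;> linarith
    · rintro ⟨h1, h2⟩
      constructor <;> linarith
  rw [e1, Real.volume_preimage_mul_left (by norm_num : (2 : ℝ)⁻¹ ≠ 0), measure_preimage_add_right,
    smul_eq_mul, ← mul_assoc]
  have e3 : (2 : ℝ≥0∞)⁻¹ * ENNReal.ofReal |((2 : ℝ)⁻¹)⁻¹| = 1 := by
    rw [inv_inv, abs_of_pos (by norm_num : (0:ℝ) < 2), ENNReal.ofReal_ofNat]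
    exact ENNReal.inv_mul_cancel (by norm_num) (by norm_num)
  rw [e3, one_mul]

/-- the law of `(a + ξ) / 2`, `ξ` uniform on `[-1, 1]` -/
theorem K2 {Ω : Type*} [MeasurableSpace Ω] {P : Measure Ω} {ξ : Ω → ℝ} (hξ : Measurable ξ)
    (hlaw : P.map ξ = (2 : ℝ≥0∞)⁻¹ • (volume : Measure ℝ).restrict (Icc (-1) 1)) (a : ℝ) :
    Sh (P.map (fun ω => (a + ξ ω) / 2)) := by
  have e : P.map (fun ω => (a + ξ ω) / 2) =
      (P.map ξ).map (fun x => (a + x) / 2) :=
    (Measure.map_map (by fun_prop : Measurable (fun x : ℝ => (a + x) / 2)) hξ).symm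
  rw [e, hlaw, map_unif]
  exact sh_Icc _ _

/-- the first moment of `(a + ξ) / 2` -/
theorem K2m {Ω : Type*} [MeasurableSpace Ω] {P : Measure Ω} {ξ : Ω → ℝ} (hξ : Measurable ξ)
    (hlaw : P.map ξ = (2 : ℝ≥0∞)⁻¹ • (volume : Measure ℝ).restrict (Icc (-1) 1)) {a R : ℝ}
    (ha : |a| ≤ R) :
    ∫⁻ x, ‖x‖ₑ ∂(P.map (fun ω => (a + ξ ω) / 2)) ≤ ENNReal.ofReal ((R + 1) / 2) := by
  have e : P.map (fun ω => (a + ξ ω) / 2) =
      (P.map ξ).map (fun x => (a + x) / 2) :=
    (Measure.map_map (by fun_prop : Measurable (fun x : ℝ => (a + x) / 2)) hξ).symm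
  rw [e, hlaw, map_unif]
  obtain ⟨h1, h2⟩ := abs_le.1 ha
  calc ∫⁻ x in Icc ((a - 1) / 2) ((a + 1) / 2), ‖x‖ₑ
      ≤ ∫⁻ _x in Icc ((a - 1) / 2) ((a + 1) / 2), ENNReal.ofReal ((R + 1) / 2) := by
        refine setLIntegral_mono measurable_const fun x hx => ?_
        rw [← ofReal_norm]
        refine ENNReal.ofReal_le_ofReal ?_
        rw [Real.norm_eq_abs, abs_le]
        constructor
        · linarith [hx.1]
        · linarith [hx.2]
    _ = ENNReal.ofReal ((R + 1) / 2) := by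
        rw [lintegral_const, Measure.restrict_apply_univ, Real.volume_Icc,
          show (a + 1) / 2 - (a - 1) / 2 = 1 by ring, ENNReal.ofReal_one, mul_one]

/-- the same, the moment on the probability space -/
theorem K2e {Ω : Type*} [MeasurableSpace Ω] {P : Measure Ω} {ξ : Ω → ℝ} (hξ : Measurable ξ)
    (hlaw : P.map ξ = (2 : ℝ≥0∞)⁻¹ • (volume : Measure ℝ).restrict (Icc (-1) 1)) {a R : ℝ}
    (ha : |a| ≤ R) : ∫⁻ ω, ‖(a + ξ ω) / 2‖ₑ ∂P ≤ ENNReal.ofReal ((R + 1) / 2) := by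
  have h1 := K2m hξ hlaw ha
  rwa [lintegral_map (measurable_enorm) (by fun_prop)] at h1

end Pool.Agent.T9h95.TE
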